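import Pool.Agent.H242.GX.Stm2

set_option autoImplicit false
set_option linter.all false

/-!
GX-FINALM (MP_ae5b4e_an, helper903 for helper242): final assembly of theorem B.
(`decomp`, `second_smul` and the structure of the proof are from `Pool/Agent/H726/GX/FINAL.lean`.)
-/

open Set Filter Topology
open scoped ContDiff

namespace Pool.Agent.H903.GX

open Pool.Agent.H242.GX

theorem decomp (w : ℂ) (θ : ℝ) : w = ip w (e θ) • e θ + ip w (nu θ) • nu θ := by
  have h := Real.cos_sq_add_sin_sq θ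
  apply Complex.ext
  · simp only [ip, e, nu, Complex.add_re, Complex.real_smul, Complex.mul_re, Complex.ofReal_re,
      Complex.ofReal_im, zero_mul, sub_zero]
    linear_combination (-w.re) * h
  · simp only [ip, e, nu, Complex.add_im, Complex.real_smul, Complex.mul_im, Complex.ofReal_re,
      Complex.ofReal_im, zero_mul, add_zero]
    linear_combination (-w.im) * h

theorem second_smul (Y : ℂ → ℝ) (z u : ℂ) (l : ℝ) :
    fderiv ℝ (fderiv ℝ Y) z (l • u) (l • u) = l ^ 2 * fderiv ℝ (fderiv ℝ Y) z u u := by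
  rw [map_smul, map_smul]
  simp only [smul_apply, smul_eq_mul]
  ring

/-- the derivative in the second variable -/
theorem der_slice {F : ℝ × ℝ → ℝ} (hF : ContDiff ℝ ∞ F) (θ t : ℝ) :
    deriv (fun s => F (θ, s)) t = fderiv ℝ F (θ, t) (0, 1) := by
  have h1 : HasFDerivAt F (fderiv ℝ F (θ, t)) (θ, t) :=
    (hF.differentiable (by simp)).differentiableAt.hasFDerivAt
  have h2 : HasDerivAt (fun s : ℝ => (θ, s)) (0, 1) t :=
    (hasDerivAt_const t θ).prodMk (hasDerivAt_id t)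
  exact (h1.comp_hasDerivAt t h2).deriv

theorem smooth_slice {F : ℝ × ℝ → ℝ} (hF : ContDiff ℝ ∞ F) :
    ContDiff ℝ ∞ (fun x : ℝ × ℝ => fderiv ℝ F x (0, 1)) :=
  (hF.fderiv_right (m := ∞) (by simp)).clm_apply contDiff_const

theorem smooth_at_zero {F : ℝ × ℝ → ℝ} (hF : ContDiff ℝ ∞ F) :
    ContDiff ℝ ∞ (fun θ : ℝ => deriv (fun s => F (θ, s)) 0) := by
  have h1 : (fun θ : ℝ => deriv (fun s => F (θ, s)) 0) =
      (fun x : ℝ × ℝ => fderiv ℝ F x (0, 1)) ∘ fun θ : ℝ => (θ, (0 : ℝ)) := by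
    funext θ
    exact der_slice hF θ 0
  rw [h1]
  exact (smooth_slice hF).comp (contDiff_id.prodMk contDiff_const)

theorem smooth_at_zero2 {F : ℝ × ℝ → ℝ} (hF : ContDiff ℝ ∞ F) :
    ContDiff ℝ ∞ (fun θ : ℝ => deriv (deriv (fun s => F (θ, s))) 0) := by
  have h1 : (fun θ : ℝ => deriv (deriv (fun s => F (θ, s))) 0) =
      fun θ : ℝ => deriv (fun s => (fun x : ℝ × ℝ => fderiv ℝ F x (0, 1)) (θ, s)) 0 := by
    funext θ
    congr 1
    funext s
    exact der_slice hF θ s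
  rw [h1]
  exact smooth_at_zero (smooth_slice hF)

theorem der_neg_neg (f : ℝ → ℝ) : deriv (fun t => -f (-t)) = fun t => deriv f (-t) := by
  funext t
  have h1 : deriv (fun t => -f (-t)) t = -deriv (fun t => f (-t)) t := deriv.fun_neg
  rw [h1, deriv_comp_neg]
  ring

theorem der2_neg_neg (f : ℝ → ℝ) : deriv (deriv (fun t => -f (-t))) 0 = -deriv (deriv f) 0 := by
  rw [der_neg_neg]
  have h1 : deriv (fun t => deriv f (-t)) 0 = -deriv (deriv f) (-0) := deriv_comp_neg (deriv f) 0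
  rw [h1, neg_zero]

/-- the change of the parameter -/
theorem param {c s : ℝ} (hs : |c * s| < 1 / 2) :
    0 < 1 + c * s ∧ 0 < 1 + c * s / 2 ∧ |s / (1 + c * s / 2)| ≤ 2 * |s| ∧
      |-s / (1 + c * s)| ≤ 2 * |s| ∧
      (s / (1 + c * s / 2)) / (1 - c * (s / (1 + c * s / 2)) / 2) = s ∧
      (-(s / (1 + c * s / 2))) / (1 - c * (-(s / (1 + c * s / 2))) / 2) = -s / (1 + c * s) := by
  rw [abs_lt] at hs
  have h1 : 0 < 1 + c * s := by linarith
  have h2 : 0 < 1 + c * s / 2 := by linarith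
  have h3 : |s / (1 + c * s / 2)| ≤ 2 * |s| := by
    rw [abs_div, abs_of_pos h2, div_le_iff₀ h2]
    nlinarith [abs_nonneg s]
  have h4 : |-s / (1 + c * s)| ≤ 2 * |s| := by
    rw [abs_div, abs_of_pos h1, abs_neg, div_le_iff₀ h1]
    nlinarith [abs_nonneg s]
  obtain ⟨q, hq⟩ : ∃ q : ℝ, q = 1 + c * s / 2 := ⟨_, rfl⟩
  obtain ⟨w, hw⟩ : ∃ w : ℝ, w = 1 + c * s := ⟨_, rfl⟩
  have hq0 : q ≠ 0 := by rw [hq]; exact h2.ne'
  have hw0 : w ≠ 0 := by rw [hw]; exact h1.ne'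
  have e1 : c * (s / q) / 2 = (q - 1) / q := by
    have e2 : c * s / 2 = q - 1 := by linarith
    rw [← e2]
    ring
  refine ⟨h1, h2, h3, h4, ?_, ?_⟩
  · rw [← hq, e1]
    have h5 : 1 - (q - 1) / q = 1 / q := by
      rw [eq_div_iff hq0, sub_mul, div_mul_cancel₀ _ hq0]
      ring
    rw [h5, div_div_eq_mul_div, div_one, div_mul_cancel₀ _ hq0]
  · rw [← hq, ← hw]
    have h5 : 1 - c * -(s / q) / 2 = w / q := by
      have h6 : 1 - c * -(s / q) / 2 = 1 + c * (s / q) / 2 := by ring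
      rw [h6, e1, eq_div_iff hq0, add_mul, div_mul_cancel₀ _ hq0]
      linarith
    rw [h5, ← neg_div, div_div_div_cancel_right₀ hq0]

theorem gx_FINALM (hWEB : S_WEB) (hMWEB : S_MWEB) (hMOD : S_MOD) (hFORMALM : S_FORMALM)
    (hEVENM : S_EVENM) (hDESC3 : S_DESC3) (hBODY : S_BODY) (hCONV : S_CONV) (hTAN : S_TAN)
    (hSIGP : S_SIGP) : S_FINALM := by
  intro p hp hpe u hu hupos
  obtain ⟨hT, hconv, hfr, _⟩ := hBODY p hp
  obtain ⟨X, Z, hW⟩ := hWEB p hp
  have hM := hMWEB p X Z hW hpe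
  have hX1 : ContDiff ℝ ∞ (fun x => (X x).1) := contDiff_fst.comp hM.smX
  have hX2 : ContDiff ℝ ∞ (fun x => (X x).2) := contDiff_snd.comp hM.smX
  obtain ⟨a, ha⟩ : ∃ a : ℝ → ℝ, a = fun θ => deriv (fun t => (X (θ, t)).1) 0 := ⟨_, rfl⟩
  obtain ⟨b, hb⟩ : ∃ b : ℝ → ℝ, b = fun θ => deriv (fun t => (X (θ, t)).2) 0 := ⟨_, rfl⟩
  obtain ⟨b₂, hb₂⟩ : ∃ b₂ : ℝ → ℝ, b₂ = fun θ => deriv (deriv (fun t => (X (θ, t)).2)) 0 :=
    ⟨_, rfl⟩
  have hasm : ContDiff ℝ ∞ a := by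
    rw [ha]
    exact smooth_at_zero hX1
  have hbsm : ContDiff ℝ ∞ b := by
    rw [hb]
    exact smooth_at_zero hX2
  have hb₂sm : ContDiff ℝ ∞ b₂ := by
    rw [hb₂]
    exact smooth_at_zero2 hX2
  have haper : ∀ θ, a (θ + 2 * Real.pi) = a θ := by
    intro θ
    rw [ha]
    have h1 : (fun t => (X (θ + 2 * Real.pi, t)).1) = fun t => (X (θ, t)).1 + 2 * Real.pi := by
      funext t
      rw [hM.per]
    show deriv (fun t => (X (θ + 2 * Real.pi, t)).1) 0 = deriv (fun t => (X (θ, t)).1) 0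
    rw [h1, deriv_add_const]
  have hX2per : ∀ θ, (fun t => (X (θ + 2 * Real.pi, t)).2) = fun t => (X (θ, t)).2 := by
    intro θ
    funext t
    rw [hM.per]
  have hbper : ∀ θ, b (θ + 2 * Real.pi) = b θ := by
    intro θ
    rw [hb]
    show deriv (fun t => (X (θ + 2 * Real.pi, t)).2) 0 = deriv (fun t => (X (θ, t)).2) 0
    rw [hX2per]
  have hb₂per : ∀ θ, b₂ (θ + 2 * Real.pi) = b₂ θ := by
    intro θ
    rw [hb₂]
    show deriv (deriv (fun t => (X (θ + 2 * Real.pi, t)).2)) 0 =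
      deriv (deriv (fun t => (X (θ, t)).2)) 0
    rw [hX2per]
  have hmir1 : ∀ θ, (fun t => (X (-θ, t)).1) = fun t => -(X (θ, -t)).1 := by
    intro θ
    funext t
    have h1 := hM.mir θ (-t)
    rw [neg_neg] at h1
    rw [h1]
  have hmir2 : ∀ θ, (fun t => (X (-θ, t)).2) = fun t => -(X (θ, -t)).2 := by
    intro θ
    funext t
    have h1 := hM.mir θ (-t)
    rw [neg_neg] at h1
    rw [h1]
  have haev : ∀ θ, a (-θ) = a θ := by
    intro θ
    rw [ha]
    show deriv (fun t => (X (-θ, t)).1) 0 = deriv (fun t => (X (θ, t)).1) 0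
    rw [hmir1, der_neg_neg (fun t => (X (θ, t)).1)]
    show deriv (fun t => (X (θ, t)).1) (-0) = _
    rw [neg_zero]
  have hbev : ∀ θ, b (-θ) = b θ := by
    intro θ
    rw [hb]
    show deriv (fun t => (X (-θ, t)).2) 0 = deriv (fun t => (X (θ, t)).2) 0
    rw [hmir2, der_neg_neg (fun t => (X (θ, t)).2)]
    show deriv (fun t => (X (θ, t)).2) (-0) = _
    rw [neg_zero]
  have hb₂odd : ∀ θ, b₂ (-θ) = -b₂ θ := by
    intro θ
    rw [hb₂]
    show deriv (deriv (fun t => (X (-θ, t)).2)) 0 = -deriv (deriv (fun t => (X (θ, t)).2)) 0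
    rw [hmir2, der2_neg_neg (fun t => (X (θ, t)).2)]
  have hapos : ∀ θ, 0 < a θ := by
    intro θ
    rw [ha]
    exact hM.der1 θ
  have hbpos : ∀ θ, 0 < b θ := by
    intro θ
    rw [hb]
    exact hM.der2 θ
  have hu'sm : ContDiff ℝ ∞ (deriv u) := (contDiff_infty_iff_deriv.1 hu.smooth).2
  have hu'per : ∀ φ, deriv u (φ + 2 * Real.pi) = deriv u φ := by
    intro φ
    have h1 : (fun x => u (x + 2 * Real.pi)) = u := funext hu.per
    have h2 := deriv_comp_add_const u (2 * Real.pi) φ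
    rw [h1] at h2
    exact h2.symm
  have hu'odd : ∀ φ, deriv u (-φ) = -deriv u φ := by
    intro φ
    have h1 : (fun x => u (-x)) = u := funext hu.even
    have h2 := deriv_comp_neg u φ
    rw [h1] at h2
    linarith
  obtain ⟨c, hc⟩ : ∃ c : ℝ → ℝ, c = fun θ => -(a θ * deriv u θ / u θ) - b₂ θ / b θ := ⟨_, rfl⟩
  have hcPP : PP c := by
    refine ⟨?_, ?_⟩
    · rw [hc]
      exact ((hasm.mul hu'sm).div hu.smooth (fun θ => (hupos θ).ne')).neg.sub
        (hb₂sm.div hbsm (fun θ => (hbpos θ).ne'))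
    · intro φ
      rw [hc]
      show -(a (φ + 2 * Real.pi) * deriv u (φ + 2 * Real.pi) / u (φ + 2 * Real.pi)) -
        b₂ (φ + 2 * Real.pi) / b (φ + 2 * Real.pi) = -(a φ * deriv u φ / u φ) - b₂ φ / b φ
      rw [haper, hu'per, hu.per, hb₂per, hbper]
  have hcodd : ∀ θ, c (-θ) = -c θ := by
    intro θ
    rw [hc]
    show -(a (-θ) * deriv u (-θ) / u (-θ)) - b₂ (-θ) / b (-θ) =
      -(-(a θ * deriv u θ / u θ) - b₂ θ / b θ)
    rw [haev, hu'odd, hu.even, hb₂odd, hbev]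
    ring
  obtain ⟨X', Z', hW', ⟨δ, hδ, hXX'⟩, hd1, hd2, hd3, hMM'⟩ := hMOD X Z hM.toWeb c hcPP
  have hM' := hMM' hM hcodd
  obtain ⟨H₀, hH₀, hH₀per, hH₀0, hH₀d, hflat⟩ := hFORMALM X' Z' hM' u hu (by
    intro θ
    rw [hd2, hd1, hd3]
    have e1 : deriv (fun t => (X (θ, t)).1) 0 = a θ := by rw [ha]
    have e2 : deriv (fun t => (X (θ, t)).2) 0 = b θ := by rw [hb]
    have e3 : deriv (deriv (fun t => (X (θ, t)).2)) 0 = b₂ θ := by rw [hb₂]
    have e4 : c θ = -(a θ * deriv u θ / u θ) - b₂ θ / b θ := by rw [hc]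
    rw [e1, e2, e3, e4]
    have h1 := (hbpos θ).ne'
    have h2 := (hupos θ).ne'
    field_simp
    ring)
  obtain ⟨H, hH, hHper, hH0, hHd, hHodd⟩ := hEVENM X' Z' hW' H₀ hH₀ hH₀per hH₀0 hflat
  have hHd' : ∀ φ, deriv (fun y => H (φ, y)) 0 = u φ := fun φ => (hHd φ).trans (hH₀d φ)
  obtain ⟨V, Y, hV, hfV, hY, hY0, hYpos, hder, hYH⟩ :=
    hDESC3 p X Z hW H hH hHper hH0 (fun φ => by rw [hHd']; exact hupos φ)
  have hne : ∀ z ∈ frontier (body p), fderiv ℝ Y z ≠ 0 := by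
    intro z hz h0
    rw [hfr] at hz
    obtain ⟨θ, rfl⟩ := hz
    have h1 := (hder θ).2.1
    rw [h0, zero_apply, hHd'] at h1
    exact (hupos θ).ne h1
  have key : ∀ z ∈ frontier (body p), ∀ w : ℂ, w ≠ 0 → fderiv ℝ Y z w = 0 →
      0 < fderiv ℝ (fderiv ℝ Y) z w w := by
    intro z hz w hw hwY
    rw [hfr] at hz
    obtain ⟨θ, rfl⟩ := hz
    obtain ⟨h1, h2, h3⟩ := hder θ
    rw [hHd'] at h2
    have hd := decomp w θ
    have hm : ip w (nu θ) = 0 := by
      rw [hd, map_add, map_smul, map_smul, h1, smul_zero, zero_add, smul_eq_mul, h2] at hwY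
      rcases mul_eq_zero.1 hwY with h | h
      · exact h
      · exact absurd h (hupos θ).ne'
    rw [hm, zero_smul, add_zero] at hd
    have hl : ip w (e θ) ≠ 0 := by
      intro h0
      rw [h0, zero_smul] at hd
      exact hw hd
    rw [hd, second_smul]
    have : 0 < ip w (e θ) ^ 2 := by positivity
    exact mul_pos this h3
  obtain ⟨U, hUV, hF⟩ := hCONV (body p) V Y hT.1 hconv hT.2.2.1 hV hfV hY hY0 hYpos hne key
  refine ⟨U, Y, hF, ?_, fun θ => (hder θ).2.1.trans (hHd' θ)⟩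
  intro z hz v hv
  have hzU : z ∈ U := hF.frontier_subset hz
  have hz' := hz
  rw [hfr] at hz'
  obtain ⟨θ, rfl⟩ := hz'
  obtain ⟨l, hl, rfl⟩ := hTAN p hp θ v hv
  obtain ⟨r₁, hr₁, hYr⟩ := hYH θ
  obtain ⟨r₂, hr₂, hodd⟩ := hHodd θ
  have hlpos : 0 < |l| := abs_pos.2 hl
  obtain ⟨κ, hκ⟩ : ∃ κ : ℝ, κ = min (min (δ / 2) (r₂ / 2)) (min (r₁ / 2) (1 / (2 * (|c θ| + 1)))) :=
    ⟨_, rfl⟩
  have hκ0 : 0 < κ := by
    rw [hκ]
    positivity
  have hκ1 : 2 * κ ≤ δ := by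
    have h1 : κ ≤ δ / 2 := by
      rw [hκ]
      exact (min_le_left _ _).trans (min_le_left _ _)
    linarith
  have hκ2 : 2 * κ ≤ r₂ := by
    have h1 : κ ≤ r₂ / 2 := by
      rw [hκ]
      exact (min_le_left _ _).trans (min_le_right _ _)
    linarith
  have hκ3 : 2 * κ ≤ r₁ := by
    have h1 : κ ≤ r₁ / 2 := by
      rw [hκ]
      exact (min_le_right _ _).trans (min_le_left _ _)
    linarith
  have hκ4 : (|c θ| + 1) * κ ≤ 1 / 2 := by
    have h1 : κ ≤ 1 / (2 * (|c θ| + 1)) := by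
      rw [hκ]
      exact (min_le_right _ _).trans (min_le_right _ _)
    have h2 : 0 < 2 * (|c θ| + 1) := by positivity
    rw [le_div_iff₀ h2] at h1
    linarith
  -- the relation on the tangent line
  have hrel : ∀ s : ℝ, |s| < κ → 0 < 1 + c θ * s ∧
      Y (gam p θ + (-s / (1 + c θ * s)) • e θ) = Y (gam p θ + s • e θ) := by
    intro s hs
    have hcs : |c θ * s| < 1 / 2 := by
      rw [abs_mul]
      have h1 : |c θ| * |s| ≤ |c θ| * κ := mul_le_mul_of_nonneg_left hs.le (abs_nonneg _)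
      nlinarith
    obtain ⟨p1, p2, p3, p4, p5, p6⟩ := param hcs
    refine ⟨p1, ?_⟩
    obtain ⟨τ, hτ⟩ : ∃ τ : ℝ, τ = s / (1 + c θ * s / 2) := ⟨_, rfl⟩
    rw [← hτ] at p3 p5 p6
    have hτ1 : |τ| < δ := by linarith
    have hτ2 : |-τ| < δ := by rwa [abs_neg]
    have hτ3 : |τ| < r₂ := by linarith
    have e1 := (hXX' θ τ hτ1).2
    have e2 := (hXX' θ (-τ) hτ2).2
    rw [p5] at e1
    rw [p6] at e2
    have e3 := hodd τ hτ3
    unfold Pool.Agent.H242.GX.Odd at e3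
    rw [e1, e2] at e3
    have e4 := hYr s (by linarith)
    have e5 := hYr (-s / (1 + c θ * s)) (by linarith)
    rw [e4, e5]
    linarith
  refine hSIGP U Y (gam p θ) (l • e θ) (κ / |l|) (l * c θ) hF.isOpen hzU hF.smooth
    (div_pos hκ0 hlpos) ?_ ?_
  · intro t ht
    have hs : |l * t| < κ := by
      rw [abs_mul, mul_comm]
      exact (lt_div_iff₀ hlpos).1 ht
    obtain ⟨h1, h2⟩ := hrel (l * t) hs
    have e1 : 1 + l * c θ * t = 1 + c θ * (l * t) := by ring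
    rw [e1]
    refine ⟨h1, ?_⟩
    rw [smul_smul, smul_smul]
    have e2 : -t / (1 + c θ * (l * t)) * l = -(l * t) / (1 + c θ * (l * t)) := by ring
    rw [e2, mul_comm t l]
    exact h2
  · rw [second_smul]
    have : 0 < l ^ 2 := by positivity
    exact mul_pos this (hder θ).2.2

end Pool.Agent.H903.GX
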